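import Mathlib
import Pool.Agent.R437.Met.AF2
import Pool.Agent.R437.Met.AF3
import Pool.Agent.R437.Met.AFc
import Pool.Agent.Results.MP_9a3c31_nt.AllFieldsAllTwists

/-!
# Lang and Silverman's lower bound for the approximations of almost every number, in all fields

`Near n θ τ C ξ` is the set of all `(K, j, σ)`, where `K` is any number field of degree `n` (in the
algebraic closure of `ℚ`), `j` an element of `K` and `σ` an embedding of `K` into `Λ`, such that the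
distance of `ξ` and `σ(j)` is at most `C H(j) ^ (-τ)` and the root discriminant of `K` is at most
`H(j) ^ θ`, where `H(j)` is the absolute height.

Outside a set of `ξ` of small Hausdorff dimension, the lower bound of Lang and Silverman with an
absolute constant holds for all elliptic curves (all twists), all powers, all polarizations and all
points over `K` for all but finitely many of these invariants `j`, in all fields of degree `n` at
once, whereas for real `ξ` each real field of degree `n` contains infinitely many of them for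
`τ < 2 n`.
-/

set_option autoImplicit false

namespace Pool.Agent.Results.MP_9a3c31_nt.ApproximationsAllFields

open NumberField Height MeasureTheory Filter IsDedekindDomain
open Pool.Agent.Results.MP_9a3c31_nt.AllFieldsAllTwists (LangSilverman Inv Exc)
open scoped ENNReal NNReal

section Aux

open Pool.Agent.R437.Met.AF

/-- the invariants in `K` for which the lower bound of Lang and Silverman with constant `c` fails -/
def Bad (c : ℝ) (K : NF) : Set K.1 := {j | j ≠ 0 ∧ j ≠ 1728 ∧ ¬ LangSilverman c j}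

theorem mono {K : Type} [Field K] [NumberField K] {c c' : ℝ} (h : c ≤ c') {j : K}
    (hj : LangSilverman c' j) : LangSilverman c j := by
  classical
  intro a b hD hab S hS g M hM P hP
  have h1 := hj a b hD hab S hS g M hM P hP
  refine le_trans (mul_le_mul_of_nonneg_right h ?_) h1
  have h2 : 0 ≤ logHeight₁ j := zero_le_logHeight₁ j
  have h3 : 0 ≤ ∑ v ∈ S, Real.log (Ideal.absNorm v.asIdeal) :=
    Finset.sum_nonneg fun v _ => Real.log_natCast_nonneg _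
  positivity

theorem bad_mono {c c' : ℝ} (h : c ≤ c') (K : NF) : Bad c K ⊆ Bad c' K :=
  fun _ hj => ⟨hj.1, hj.2.1, fun h1 => hj.2.2 (mono h h1)⟩

theorem bad_count {n : ℕ} (hn : 1 ≤ n) {η : ℝ} (h0 : 0 < η) (h1 : η < 1 / 2) (ε : ℝ) (hε : 0 < ε) :
    ∃ C : ℝ, ∀ K : NF, Module.finrank ℚ K.1 = n → ∀ B : ℝ, 1 ≤ B →
      {j : K.1 | j ∈ Bad ((1 - 2 * η) / 100) K ∧ logHeight₁ j ≤ n * Real.log B}.Finite ∧
      (({j : K.1 | j ∈ Bad ((1 - 2 * η) / 100) K ∧ logHeight₁ j ≤ n * Real.log B}.ncard : ℕ) : ℝ) ≤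
        C * B ^ (n * (2 - η / 2) + ε) := by
  have hn0 : (0 : ℝ) < n := by exact_mod_cast hn
  obtain ⟨C, hC, h⟩ := AllFieldsAllTwists.result.1 η (ε / n) h0 h1 (by positivity)
  refine ⟨C ^ n, fun K hK B hB => ?_⟩
  have hB0 : 0 < B := by linarith
  obtain ⟨h2, h3⟩ := h K.1 B hB
  have hset : {j : K.1 | j ∈ Bad ((1 - 2 * η) / 100) K ∧ logHeight₁ j ≤ n * Real.log B} =
      Exc K.1 ((1 - 2 * η) / 100) B := by
    ext j
    simp only [Set.mem_ofPred_eq, Bad, Exc, AllFieldsAllTwists.Inv, hK]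
    tauto
  rw [hset]
  refine ⟨h2.subset fun j hj => hj.1, h3.trans (le_of_eq ?_)⟩
  rw [hK, mul_pow, ← Real.rpow_natCast (B ^ _), ← Real.rpow_mul hB0.le]
  congr 2
  field_simp

theorem main :
    (∃ e : ℕ → ℝ,
      (∀ c : ℝ, 1 / (8 * (Real.log 2) ^ 2) < c →
        ∀ᶠ n : ℕ in atTop, e n ≤ c * (Real.log n) ^ 2) ∧
      (∀ n, 0 ≤ e n) ∧
      (∀ n : ℕ, 2 ≤ n →
        e n ≤ (((n + 2) * (n - 1) : ℕ) : ℝ) / (4 * ((n - n / n.minFac : ℕ) : ℝ))) ∧
      e 1 = 0 ∧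
      (∀ (Λ : Type) [Field Λ] [CharZero Λ] [MetricSpace Λ] (n : ℕ) (η θ τ : ℝ), 1 ≤ n → 0 < η →
        η < 1 / 2 → 0 ≤ θ → 0 < τ →
          dimH {ξ : Λ | ∃ C : ℝ, {p | p ∈ Near n θ τ C ξ ∧ p.2.1 ≠ 0 ∧ p.2.1 ≠ 1728 ∧
            ¬ LangSilverman ((1 - 2 * η) / 100) p.2.1}.Infinite} ≤
              ENNReal.ofReal (n * (2 - η / 2 + θ * e n) / τ)) ∧
      (∀ᵐ ξ : ℝ, ∀ (n : ℕ) (η θ τ C : ℝ), 1 ≤ n → 0 < η → η < 1 / 2 → 0 ≤ θ →
        n * (2 - η / 2 + θ * e n) < τ →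
          {p | p ∈ Near n θ τ C ξ ∧ p.2.1 ≠ 0 ∧ p.2.1 ≠ 1728 ∧
            ¬ LangSilverman ((1 - 2 * η) / 100) p.2.1}.Finite)) ∧
    (∀ (K : NF) (σ : K.1 →+* ℝ) (θ τ : ℝ), 0 < θ → τ < 2 * (Module.finrank ℚ K.1 : ℝ) →
      ∀ ξ : ℝ, ξ ∉ Set.range σ →
        {j : K.1 | j ≠ 0 ∧ j ≠ 1728 ∧
          (⟨K, j, σ⟩ : Pt ℝ) ∈ Near (Module.finrank ℚ K.1) θ τ 1 ξ}.Infinite) := by
  obtain ⟨e, h1, h2, h3, h4, h5⟩ := field_count
  have hdim : ∀ (Λ : Type) [Field Λ] [CharZero Λ] [MetricSpace Λ] (n : ℕ) (η θ τ : ℝ), 1 ≤ n →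
      0 < η → η < 1 / 2 → 0 ≤ θ → 0 < τ →
        dimH {ξ : Λ | ∃ C : ℝ, {p | p ∈ Near n θ τ C ξ ∧ p.2.1 ≠ 0 ∧ p.2.1 ≠ 1728 ∧
            ¬ LangSilverman ((1 - 2 * η) / 100) p.2.1}.Infinite} ≤
              ENNReal.ofReal (n * (2 - η / 2 + θ * e n) / τ) := by
    intro Λ _ _ _ n η θ τ hn hη0 hη1 hθ hτ
    refine (dim (Λ := Λ) (Bad ((1 - 2 * η) / 100)) hn (a := n * (2 - η / 2)) (s := e n)
      (mul_nonneg (Nat.cast_nonneg _) (by linarith)) (h2 n) hθ hτ (h5 n hn)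
      (fun ε hε => bad_count hn hη0 hη1 ε hε)).trans (le_of_eq ?_)
    congr 2
    ring
  refine ⟨⟨e, h1, h2, h3, h4, hdim, ?_⟩, ?_⟩
  · rw [ae_all_iff]
    intro n
    have key := ae_params (volume : Measure ℝ) (fun η θ τ ξ => ∀ C : ℝ,
        {p | p ∈ Near n θ τ C ξ ∧ p.2.1 ≠ 0 ∧ p.2.1 ≠ 1728 ∧
            ¬ LangSilverman ((1 - 2 * η) / 100) p.2.1}.Finite)
      (by
        intro η η' θ θ' τ τ' ξ hη hθ hτ h C
        refine (h |C|).subset ?_
        rintro p ⟨hp1, hp2, hp3, hp4⟩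
        exact ⟨near_mono hθ hτ (le_abs_self C) (abs_nonneg C) ξ hp1, hp2, hp3,
          fun h6 => hp4 (mono (by linarith) h6)⟩)
      (fun η θ τ => 1 ≤ n ∧ 0 < η ∧ η < 1 / 2 ∧ 0 ≤ θ ∧ n * (2 - η / 2 + θ * e n) < τ)
      (by
        rintro η θ τ ⟨hn, hη0, hη1, hθ, hg⟩
        obtain ⟨η', θ', τ', a1, a2, a3, a4, a5⟩ := open_rat (fun x => 2 - x / 2) (n := n)
          (e := e n) (lo := 0) (η := η) (θ := θ) (τ := τ) (Nat.cast_nonneg _) (h2 n) hη0
          (by fun_prop) hg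
        exact ⟨η', θ', τ', a2, a3, a4, hn, a1, by linarith, by linarith, a5⟩)
      (by
        rintro η θ τ ⟨hn, hη0, hη1, hθ, hg⟩
        have hn0 : (1 : ℝ) ≤ n := by exact_mod_cast hn
        have hpos : 0 < (n : ℝ) * (2 - η / 2 + θ * e n) := by
          have := mul_nonneg hθ (h2 n)
          exact mul_pos (by linarith) (by linarith)
        have hτ : 0 < τ := by linarith
        have h7 : volume {ξ : ℝ | ∃ C : ℝ, {p | p ∈ Near n θ τ C ξ ∧ p.2.1 ≠ 0 ∧ p.2.1 ≠ 1728 ∧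
            ¬ LangSilverman ((1 - 2 * η) / 100) p.2.1}.Infinite} = 0 := by
          refine null_real (lt_of_le_of_lt (hdim ℝ n η θ τ hn hη0 hη1 hθ hτ) ?_)
          rw [← ENNReal.ofReal_one, ENNReal.ofReal_lt_ofReal_iff one_pos, div_lt_one hτ]
          exact hg
        rw [ae_iff]
        refine measure_mono_null ?_ h7
        intro ξ hξ
        simp only [Set.mem_ofPred_eq, not_forall] at hξ ⊢
        exact hξ)
    filter_upwards [key] with ξ hξ
    intro η θ τ C hn hη0 hη1 hθ hg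
    exact hξ η θ τ ⟨hn, hη0, hη1, hθ, hg⟩ C
  · intro K σ θ τ hθ hτ ξ hξ
    have h6 := infinite_near K σ hθ hτ hξ (E := {0, 1728}) (by simp)
    refine h6.mono ?_
    rintro j ⟨hj1, hj2⟩
    refine ⟨fun h => hj1 (by simp [h]), fun h => hj1 (by simp [h]), hj2⟩

end Aux

open Pool.Agent.R437.Met.AFc

/-- the points in `Near n θ τ C ξ` where the lower bound with constant `(1 - 2 η) / 100` fails -/
def Fail {Λ : Type} [Field Λ] [MetricSpace Λ] (n : ℕ) (η θ τ C : ℝ) (ξ : Λ) : Set (Pt Λ) :=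
  {p | p ∈ Near n θ τ C ξ ∧ p.x ≠ 0 ∧ p.x ≠ 1728 ∧ ¬ LangSilverman ((1 - 2 * η) / 100) p.x}

/-- **Theorem.** There is `e : ℕ → ℝ` with `e 1 = 0`, `0 ≤ e n ≤ (n + 2) (n - 1) / (4 (n - n / p))`,
`p` the least prime factor of `n ≥ 2` (so `e 2 ≤ 1`, `e 3 ≤ 5 / 4`), and `e n = O(log ^ 2 n)`, such
that the following holds for `0 < η < 1 / 2` and `θ ≥ 0`.
(1) For every field `Λ` of characteristic zero with a metric (`ℝ`, `ℂ`, `ℚ_p`), all `n ≥ 1`, `τ > 0`
and all `ξ` in `Λ` outside a set of Hausdorff dimension at most `n (2 - η / 2 + θ e(n)) / τ`: for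
every `C`, for all but finitely many `(K, j, σ)` in `Near n θ τ C ξ` with `j ≠ 0, 1728` the lower
bound of Lang and Silverman with the constant `(1 - 2 η) / 100` holds for all elliptic curves over
`K` of invariant `j`.
(2) For almost every real `ξ` this is true for all `n ≥ 1`, `η`, `θ`, `τ`, `C` with
`n (2 - η / 2 + θ e(n)) < τ`.
(3) For every number field `K` of degree `n`, every embedding `σ` of `K` into the real numbers, all
`θ > 0`, `τ < 2 n` and every real `ξ` not in `σ(K)` there are infinitely many `j ≠ 0, 1728` in `K`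
with `(K, j, σ)` in `Near n θ τ 1 ξ`. -/
theorem result :
    (∃ e : ℕ → ℝ, Expo e ∧
      (∀ (Λ : Type) [Field Λ] [CharZero Λ] [MetricSpace Λ] (n : ℕ) (η θ τ : ℝ), 1 ≤ n → 0 < η →
        η < 1 / 2 → 0 ≤ θ → 0 < τ →
          dimH {ξ : Λ | ∃ C : ℝ, (Fail n η θ τ C ξ).Infinite} ≤
            ENNReal.ofReal (n * (2 - η / 2 + θ * e n) / τ)) ∧
      (∀ᵐ ξ : ℝ, ∀ (n : ℕ) (η θ τ C : ℝ), 1 ≤ n → 0 < η → η < 1 / 2 → 0 ≤ θ →
        n * (2 - η / 2 + θ * e n) < τ → (Fail n η θ τ C ξ).Finite)) ∧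
    (∀ (K : NF) (σ : K.F →+* ℝ) (θ τ : ℝ), 0 < θ → τ < 2 * (K.deg : ℝ) →
      ∀ ξ : ℝ, ξ ∉ Set.range σ → {x | x ≠ 0 ∧ x ≠ 1728 ∧ x ∈ NearIn K σ θ τ ξ}.Infinite) := by
  obtain ⟨⟨e, h1, h2, h3, h4, h5, h6⟩, h7⟩ := main
  exact ⟨⟨e, ⟨h1, h2, h3, h4⟩, h5, h6⟩, h7⟩

end Pool.Agent.Results.MP_9a3c31_nt.ApproximationsAllFields
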