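import Pool.Agent.Results.MP_9a3c31_nt.AllFieldsAllTwists
import Pool.Agent.R559.NP.Rel

/-!
# Lang and Silverman's lower bound with an absolute constant for all elliptic curves with invariant near a given point

Let `φ` be any map from the algebraic numbers to a metric space `X`, for example the inclusion in `ℂ` or in `ℂ_p`,
`0 < η < 1 / 2` and `τ > 0`.  For all `ξ ∈ X` outside a set of Hausdorff dimension at most `(2 - η / 2) / τ` and for ALL
number fields `K` the following holds for all but finitely many `j ∈ K` with `dist (φ j) ξ ≤ κ H_K(j) ^ (-τ)`: for ALL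
elliptic curves `E` over `K` of invariant `j` (all twists), all `g`, all polarizations and all points `P ≠ 0` of `E ^ g` over
`K` the absolute canonical height of `P` is at least `(1 - 2 η) / 100` times `1`, plus the height of `j`, plus the sum of
`log N v / n` over the primes `v` of bad reduction of `E`.
-/

set_option autoImplicit false

namespace Pool.Agent.Results.MP_9a3c31_nt.InvariantsNearAPoint

open NumberField
open AllFieldsAllTwists (LangSilverman)

/-- **Theorem.** Let `φ` be a map from the algebraic numbers to a metric space `X`, `0 < η < 1 / 2` and `τ > 0`.  There is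
`E ⊆ X` of Hausdorff dimension at most `(2 - η / 2) / τ` such that for all `ξ ∈ X` outside `E`, all number fields `K` inside
the algebraic numbers and all `κ` all but finitely many `j ∈ K` with `dist (φ j) ξ ≤ κ H_K(j) ^ (-τ)`, `H_K` the height
relative to `K`, satisfy `LangSilverman ((1 - 2 η) / 100) j`: the lower bound of Lang and Silverman with constant
`(1 - 2 η) / 100` for all powers, with all polarizations, of all elliptic curves over `K` of invariant `j`. -/
theorem result (X : Type) [MetricSpace X] (φ : AlgebraicClosure ℚ → X) (η τ : ℝ) (hη : 0 < η) (hη' : η < 1 / 2)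
    (hτ : 0 < τ) :
    ∃ E : Set X, dimH E ≤ ENNReal.ofReal ((2 - η / 2) / τ) ∧ ∀ ξ : X, ξ ∉ E →
      ∀ (K : IntermediateField ℚ (AlgebraicClosure ℚ)) [NumberField K] (κ : ℝ),
        {j : K | dist (φ j) ξ ≤ κ * Height.mulHeight₁ j ^ (-τ) ∧
          ¬ LangSilverman ((1 - 2 * η) / 100) j}.Finite := by
  obtain ⟨E, hE, hE'⟩ := Pool.Agent.R559.NP.near_fields (X := X)
    (fun K _ j => (j ≠ 0 ∧ j ≠ 1728) ∧ ¬ LangSilverman (K := K) ((1 - 2 * η) / 100) j) (s := 2 - η / 2) (τ := τ)
    (by linarith) hτ
    (by
      intro K _ ε hε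
      obtain ⟨C, hC, h⟩ := AllFieldsAllTwists.result.1 η ε hη hη' hε
      refine ⟨C, hC, fun B hB => ?_⟩
      obtain ⟨h1, h2⟩ := h K B hB
      have hset : {j : K | ((j ≠ 0 ∧ j ≠ 1728) ∧ ¬ LangSilverman ((1 - 2 * η) / 100) j) ∧
          Height.logHeight₁ j ≤ Module.finrank ℚ K * Real.log B} =
          AllFieldsAllTwists.Exc K ((1 - 2 * η) / 100) B := by
        ext j
        simp only [AllFieldsAllTwists.Exc, AllFieldsAllTwists.Inv, Set.mem_ofPred_eq]
        tauto
      rw [hset]
      exact ⟨h1.subset fun j hj => hj.1, h2⟩) φ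
  refine ⟨E, hE, fun ξ hξ K _ κ => ?_⟩
  refine ((hE' ξ hξ K κ).union ((Set.finite_singleton (0 : K)).union (Set.finite_singleton (1728 : K)))).subset ?_
  rintro j ⟨h1, h2⟩
  by_cases h3 : j = 0
  · exact Or.inr (Or.inl h3)
  by_cases h4 : j = 1728
  · exact Or.inr (Or.inr h4)
  · exact Or.inl ⟨h1, ⟨h3, h4⟩, h2⟩

end Pool.Agent.Results.MP_9a3c31_nt.InvariantsNearAPoint
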