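import Mathlib
import Pool.Agent.R407.NI2

/-!
# The inequality of Lang and Silverman and regulators of Weil restrictions of elliptic curves with
# nearly `S`-integral invariants

The problem asks for a constant `c > 0`, depending on the number field `K` and on `dim A` only, such
that `ĥ(P) ≥ c max (h_F(A/K), 1)` for all abelian varieties `A` over `K` of the given dimension, all
ample symmetric line bundles and all `P ∈ A(K)` such that `End(A) P` is dense, `h_F` being the
relative Faltings height.

We prove this for ALL `A = Res_{L/K} (E ^ r)`, where `L` is an extension of `K` of degree at most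
`D` over `ℚ` and `E : y² = x³ + a x + b` is an elliptic curve over `L` (any twist) whose modular
invariant `j` generates `L` over `K`, is integral outside the primes dividing `M` up to the small
proportion `δ`, and has height larger than a bound depending on `D` and `M` only; `P` is any point of
infinite order. The constant is `c / dim A` where `c` depends on `D` only, not on `M`. Over
the algebraic closure `Res_{L/K} E` is the product of the `[L : K]` distinct conjugates of `E`. The
lower bound for the regulator, which the conjecture would imply, is proved in the form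
`Reg(A/K) ≥ ((c / (g m)) max (h_F(A/K), 1)) ^ m` for `A = Res_{L/K} E`, `g = [L : K]`, for the
determinant of the Néron pairings of any `m` independent points of `A(K)`.

The group of rational points over `K` of `Res_{L/K} (E ^ r)` is `E(L) ^ r`; a positive definite
integral matrix `X` gives a polarization; `chatM X P` is the canonical height relative to `L`, and
the canonical height of `Res_{L/K} (E ^ r)` is `chatM X P / [K : ℚ]`. The relative Faltings height
satisfies `12 [K : ℚ] h_F(A/K) = r (12 [L : ℚ] h_F(E/L) + 6 log (|D_L| / |D_K| ^ [L : K]))`; the last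
term is bounded by `12 r ([L : K] - 1) (h(j) + n)`, `n = [L : ℚ]` (after Silverman).
-/

set_option autoImplicit false
set_option linter.unusedSectionVars false

namespace Pool.Agent.Results.MP_9a3c31_nt.ResNearlyIntegralJ

open NumberField IsDedekindDomain Pool.Agent.TH942 Pool.Agent.TH910.LS

/-- the modular invariant `j(τ) = E₄(τ) ^ 3 / Δ(τ) = 1 / q + 744 + ⋯` -/
noncomputable def jFun (τ : UpperHalfPlane) : ℂ :=
  ModularForm.E₄ τ ^ 3 / ModularForm.discriminant τ

/-- the archimedean term `- log (|Δ(τ)| (Im τ) ^ 6)` of the Faltings height -/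
noncomputable def arch (τ : UpperHalfPlane) : ℝ :=
  -Real.log (‖ModularForm.discriminant τ‖ * τ.im ^ 6)

section Defs

variable {L : Type} [Field L] [NumberField L]

/-- the points `τ w` have modular invariant `j` -/
def IsPeriod (j : L) (τ : InfinitePlace L → UpperHalfPlane) : Prop :=
  ∀ w, jFun (τ w) = w.embedding j

/-- the equation is integral at `v` -/
def IntAt (v : HeightOneSpectrum (𝓞 L)) (E : WeierstrassCurve L) : Prop :=
  v.valuation L E.a₁ ≤ 1 ∧ v.valuation L E.a₂ ≤ 1 ∧ v.valuation L E.a₃ ≤ 1 ∧
    v.valuation L E.a₄ ≤ 1 ∧ v.valuation L E.a₆ ≤ 1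

/-- the exponent of `v` in the minimal discriminant of the curve: the least valuation at `v` of the
discriminant of a Weierstrass equation of the curve over `L` which is integral at `v` -/
noncomputable def discExp (v : HeightOneSpectrum (𝓞 L)) (E : WeierstrassCurve L) : ℕ :=
  sInf {m : ℕ | ∃ C : WeierstrassCurve.VariableChange L, IntAt v (C • E) ∧
    v.valuation L (C • E).Δ = WithZero.exp (-(m : ℤ))}

/-- the relative (not stabilised) Faltings height over `K` of the Weil restriction
`A = Res_{L/K} (E ^ r)`, where `E` is the curve `y² = x³ + a x + b` over `L`: `12 [K : ℚ] h_F(A/K)`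
is `r` times the sum of the logarithm of the norm of the minimal discriminant of `E`, of the
archimedean terms and of `6 log (|D_L| / |D_K| ^ [L : K])` -/
noncomputable def faltings (K : Type) [Field K] [NumberField K] [Algebra K L] (a b : L)
    (τ : InfinitePlace L → UpperHalfPlane) (r : ℕ) : ℝ :=
  r * (∑ᶠ v : HeightOneSpectrum (𝓞 L),
      (discExp v (⟨0, 0, 0, a, b⟩ : WeierstrassCurve L) : ℝ) *
        Real.log (Ideal.absNorm v.asIdeal : ℝ) +
    ∑ w : InfinitePlace L, (w.mult : ℝ) * arch (τ w) +
    6 * (Real.log |(discr L : ℝ)| - Module.finrank K L * Real.log |(discr K : ℝ)|)) /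
      (12 * Module.finrank ℚ K)

/-- the `j`-invariant of `y² = x³ + a x + b` -/
noncomputable def jInv (a b : L) : L := 6912 * a ^ 3 / (4 * a ^ 3 + 27 * b ^ 2)

/-- the absolute logarithmic Weil height -/
noncomputable def absH (x : L) : ℝ := Height.logHeight₁ x / Module.finrank ℚ L

/-- `j` is integral outside `M` up to the proportion `δ`: for some positive integer `b` with
`log b ≤ δ h(j)` and some `k`, the number `b M ^ k j` is an algebraic integer. If `b = 1` then `j`
is integral outside the primes dividing `M`. -/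
def NearlyIntegral (δ : ℝ) (M : ℕ) (j : L) : Prop :=
  ∃ b k : ℕ, 0 < b ∧ Real.log b ≤ δ * absH j ∧ IsIntegral ℤ ((b : L) * (M : L) ^ k * j)

end Defs

open Classical in
/-- the value at the points `P`, `Q` of the Néron pairing of `Res_{L/K} E` -/
noncomputable def pairing (K : Type) [Field K] [NumberField K] {L : Type} [Field L] [NumberField L]
    {a b : L} (P Q : SPt a b) : ℝ :=
  (chat (P + Q) - chat P - chat Q) / (2 * Module.finrank ℚ K)

theorem n_pos (K : Type) [Field K] [NumberField K] : (0 : ℝ) < Module.finrank ℚ K := by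
  exact_mod_cast Module.finrank_pos

/-- the relation of the definitions -/
theorem faltings_eq (K : Type) [Field K] [NumberField K] {L : Type} [Field L] [NumberField L]
    [Algebra K L] (a b : L) (τ : InfinitePlace L → UpperHalfPlane) (r : ℕ) :
    12 * (Module.finrank ℚ K : ℝ) * faltings K a b τ r =
      r * (Pool.Agent.Y733.FF.discSum (sw a b) +
      ∑ w : InfinitePlace L, (w.mult : ℝ) * Pool.Agent.TH876.FH.arch (τ w) +
      6 * (Real.log |(discr L : ℝ)| - Module.finrank K L * Real.log |(discr K : ℝ)|)) := by
  have h0 : (12 * (Module.finrank ℚ K : ℝ)) ≠ 0 := by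
    have := n_pos K
    positivity
  unfold faltings
  rw [mul_div_cancel₀ _ h0]
  rfl

open Classical in
/-- one Weil restriction -/
theorem one (D : ℕ) : ∃ (N : ℕ) (c δ : ℝ), 0 < c ∧ 0 < δ ∧ ∀ M : ℕ, M ≠ 0 → ∃ A : ℝ,
    ∀ (L : Type) [Field L] [NumberField L], Module.finrank ℚ L ≤ D →
    ∀ (K : Type) [Field K] [NumberField K] [Algebra K L] (a b : L)
      (τ : InfinitePlace L → UpperHalfPlane), 4 * a ^ 3 + 27 * b ^ 2 ≠ 0 →
    IntermediateField.adjoin K {jInv a b} = ⊤ → IsPeriod (jInv a b) τ →
    NearlyIntegral δ M (jInv a b) → A < absH (jInv a b) →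
    ∀ (r : ℕ) (X : Matrix (Fin r) (Fin r) ℤ), (X.map (Int.cast : ℤ → ℝ)).PosDef →
    ∀ P : Fin r → SPt a b, (0 < addOrderOf P ∧ addOrderOf P ≤ N) ∨ (¬ IsOfFinAddOrder P ∧
      c / ((r * Module.finrank K L : ℕ) : ℝ) * max (faltings K a b τ r) 1 ≤
        chatM X P / Module.finrank ℚ K) := by
  obtain ⟨N, c, δ, hc, hδ, h⟩ := Pool.Agent.R407.ni_core D
  refine ⟨N, c, δ, hc, hδ, fun M hM => ?_⟩
  obtain ⟨A, h⟩ := h M hM
  refine ⟨A, ?_⟩
  intro L _ _ hLD K _ _ _ a b τ hD hK hτ hj hAj r X hX P
  rcases h L hLD K a b τ hD hK hτ hj hAj r X hX P with h | ⟨htor, h1, h2⟩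
  · exact Or.inl h
  refine Or.inr ⟨htor, ?_⟩
  have hfd : FiniteDimensional K L := Module.Finite.of_restrictScalars_finite ℚ K L
  have hn := n_pos K
  have hG1 : (1 : ℝ) ≤ Module.finrank K L := by
    exact_mod_cast (Module.finrank_pos : 0 < Module.finrank K L)
  have hr1 : 1 ≤ r := by
    rcases Nat.eq_zero_or_pos r with rfl | h0
    · exfalso
      apply htor
      rw [Subsingleton.elim P 0]
      exact IsOfFinAddOrder.zero
    · exact h0
  have hr : (1 : ℝ) ≤ r := by exact_mod_cast hr1
  have hmul : (Module.finrank ℚ L : ℝ) = Module.finrank ℚ K * Module.finrank K L := by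
    rw [← Module.finrank_mul_finrank ℚ K L]
    push_cast
    rfl
  have hf := faltings_eq K a b τ r
  push_cast
  set G : ℝ := (Module.finrank K L : ℝ) with hG
  set d : ℝ := (Module.finrank ℚ K : ℝ) with hd
  set Y : ℝ := Pool.Agent.Y733.FF.discSum (sw a b) +
      ∑ w : InfinitePlace L, (w.mult : ℝ) * Pool.Agent.TH876.FH.arch (τ w) +
      6 * (Real.log |(discr L : ℝ)| - G * Real.log |(discr K : ℝ)|) with hY
  have hG0 : 0 < G := by linarith
  have hr0 : (0 : ℝ) < r := by linarith
  rw [le_div_iff₀ hn]
  have h3 : 0 ≤ chatM X P := le_trans (mul_nonneg hc.le (by positivity)) h2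
  rcases le_total (faltings K a b τ r) 1 with h4 | h4
  · rw [max_eq_right h4, mul_one]
    have h5 : c / (r * G) * d ≤ c * d := by
      apply mul_le_mul_of_nonneg_right _ hn.le
      exact div_le_self hc.le (by nlinarith)
    have h6 : c * d ≤ c * Module.finrank ℚ L := by
      apply mul_le_mul_of_nonneg_left _ hc.le
      rw [hmul]
      exact le_mul_of_one_le_right hn.le hG1
    linarith
  · rw [max_eq_left h4]
    have h5 : c / (r * G) * faltings K a b τ r * d = c * Y / (12 * G) := by
      have h6 : faltings K a b τ r * d = r * Y / 12 := by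
        rw [eq_div_iff (by norm_num)]
        linarith
      rw [mul_assoc, h6]
      field_simp
    rw [h5, div_le_iff₀ (by positivity)]
    have h7 : 0 ≤ chatM X P * G := mul_nonneg h3 hG0.le
    nlinarith

open Classical in
/-- For every `D` there are `N`, `c > 0` and `δ > 0` such that for every integer `M ≠ 0` there is
`A` such that the following holds for every number field `K`, every extension `L` of `K` of degree
at most `D` over `ℚ` and every elliptic curve `E : y² = x³ + a x + b` over `L` whose
`j`-invariant generates `L` over `K`, is integral outside `M` up to the proportion `δ` and has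
height larger than `A`. `chat` is the limit of `sht (2 ^ k Q) / 4 ^ k`, and for all `r`, all polarizations `X` and all points `P ∈ E(L) ^ r` of infinite
order, the canonical height of `P` as a rational point over `K` of `A = Res_{L/K} (E ^ r)` is at
least `(c / dim A) max (h_F(A/K), 1)` (and if `P` is of finite order, then this order is at most `N`).
If no non-trivial integral combination of `P_1, …, P_m ∈ E(L)` is a torsion point, then the
determinant of their Néron pairings on `Res_{L/K} E` is at least
`((c / ([L : K] m)) max (h_F(Res_{L/K} E), 1)) ^ m`. -/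
theorem result (D : ℕ) : ∃ (N : ℕ) (c δ : ℝ), 0 < c ∧ 0 < δ ∧ ∀ M : ℕ, M ≠ 0 → ∃ A : ℝ,
    ∀ (K : Type) [Field K] [NumberField K] (L : Type) [Field L] [NumberField L] [Algebra K L],
    Module.finrank ℚ L ≤ D →
    ∀ (a b : L) (τ : InfinitePlace L → UpperHalfPlane), 4 * a ^ 3 + 27 * b ^ 2 ≠ 0 →
    IntermediateField.adjoin K {jInv a b} = ⊤ → IsPeriod (jInv a b) τ →
    NearlyIntegral δ M (jInv a b) → A < absH (jInv a b) →
    (∀ Q : SPt a b, Filter.Tendsto (fun k : ℕ => sht ((2 ^ k : ℕ) • Q) / 4 ^ k) Filter.atTop
      (nhds (chat Q))) ∧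
    (∀ (r : ℕ) (X : Matrix (Fin r) (Fin r) ℤ), (X.map (Int.cast : ℤ → ℝ)).PosDef →
      ∀ P : Fin r → SPt a b, (0 < addOrderOf P ∧ addOrderOf P ≤ N) ∨ (¬ IsOfFinAddOrder P ∧
        c / ((r * Module.finrank K L : ℕ) : ℝ) * max (faltings K a b τ r) 1 ≤
          chatM X P / Module.finrank ℚ K)) ∧
    (∀ (m : ℕ) (P : Fin m → SPt a b),
      (∀ k : Fin m → ℤ, k ≠ 0 → ¬ IsOfFinAddOrder (∑ i, k i • P i)) →
        (c / (Module.finrank K L * m) * max (faltings K a b τ 1) 1) ^ m ≤
          (Matrix.of fun i j => pairing K (P i) (P j)).det) := by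
  obtain ⟨N, c, δ, hc, hδ, h⟩ := one D
  refine ⟨N, c, δ, hc, hδ, fun M hM => ?_⟩
  obtain ⟨A, h⟩ := h M hM
  refine ⟨A, ?_⟩
  intro K _ _ L _ _ _ hLD a b τ hD hK hτ hj hAj
  have h1 := h L hLD K a b τ hD hK hτ hj hAj
  refine ⟨(chat_spec hD).1, h1, ?_⟩
  intro m P hP
  rcases Nat.eq_zero_or_pos m with rfl | hm
  · simp
  have hfd : FiniteDimensional K L := Module.Finite.of_restrictScalars_finite ℚ K L
  have hn := n_pos K
  have hG0 : (0 : ℝ) < Module.finrank K L := by
    exact_mod_cast (Module.finrank_pos : 0 < Module.finrank K L)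
  have hm0 : (0 : ℝ) < m := by exact_mod_cast hm
  have : Nonempty (Fin m) := ⟨⟨0, hm⟩⟩
  obtain ⟨-, hq0, hqp, -⟩ := chat_spec hD
  -- one point
  have hpt : ∀ Q : SPt a b, ¬ IsOfFinAddOrder Q →
      c / Module.finrank K L * max (faltings K a b τ 1) 1 ≤ chat Q / Module.finrank ℚ K := by
    intro Q hQ
    set P' : Fin 1 → SPt a b := fun _ => Q with hP'
    have hP'' : ¬ IsOfFinAddOrder P' := by
      intro hcon
      apply hQ
      rw [isOfFinAddOrder_iff_nsmul_eq_zero] at hcon ⊢
      obtain ⟨k, hk, hk'⟩ := hcon
      exact ⟨k, hk, congrFun hk' 0⟩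
    have h2 := (h1 1 1 (by
      have : (Matrix.map (1 : Matrix (Fin 1) (Fin 1) ℤ) (Int.cast : ℤ → ℝ)) = 1 := by
        ext i j
        fin_cases i
        fin_cases j
        simp
      rw [this]
      exact Matrix.PosDef.one) P').resolve_left
        (fun h3 => hP'' (addOrderOf_pos_iff.1 h3.1))
    have h3 : chatM (1 : Matrix (Fin 1) (Fin 1) ℤ) P' = chat Q := by
      unfold chatM
      simp only [Finset.univ_unique, Fin.default_eq_zero, Finset.sum_singleton, hP']
      have h3 := (chat_spec (a := a) (b := b) hD).2.2.1 Q Q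
      rw [sub_self] at h3
      have h4 : chat (0 : SPt a b) = 0 := Pool.Agent.Y733.LS.tors_zero (a := a) (b := b) hD IsOfFinAddOrder.zero
      have h5 : chat (Q + Q) = 4 * chat Q := by linarith
      simp only [Matrix.one_apply_eq, Int.cast_one, one_mul]
      linarith
    rw [h3, one_mul] at h2
    exact h2.2
  set q : SPt a b → ℝ := fun Q => chat Q / Module.finrank ℚ K with hq
  have hμ : 0 < c / Module.finrank K L * max (faltings K a b τ 1) 1 :=
    mul_pos (div_pos hc hG0) (lt_max_of_lt_right one_pos)
  have h := Pool.Agent.R407.gram_det q (fun Q => div_nonneg (hq0 Q) hn.le) (fun Q R => by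
      have h := hqp Q R
      have h2 : q (Q + R) + q (Q - R) = (chat (Q + R) + chat (Q - R)) / Module.finrank ℚ K :=
        (add_div _ _ _).symm
      rw [h2, h]
      change _ = 2 * (chat Q / Module.finrank ℚ K + chat R / Module.finrank ℚ K)
      rw [← add_div, mul_div_assoc]) P hμ
    (fun k hk => hpt _ (hP k hk))
  rw [Fintype.card_fin] at h
  have e1 : gram q P = Matrix.of fun i j => pairing K (P i) (P j) := by
    ext i k
    unfold gram pairing
    rw [Matrix.of_apply, Matrix.of_apply]
    rw [hq]
    field_simp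
  rw [e1] at h
  have e2 : (c / (Module.finrank K L * m) * max (faltings K a b τ 1) 1) ^ m =
      (c / Module.finrank K L * max (faltings K a b τ 1) 1) ^ m / (m : ℝ) ^ m := by
    rw [← div_pow]
    congr 1
    field_simp
  rw [e2, div_le_iff₀ (by positivity)]
  exact h.trans (le_of_eq (mul_comm _ _))

end Pool.Agent.Results.MP_9a3c31_nt.ResNearlyIntegralJ
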